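import Pool.Agent.Zk86.CycZ.Fin

/-!
# Property Z for inscribed cyclic polytopes with `d+3` vertices (problem MP_7322d1_co, Q2)

For every even `d ≥ 2`, a cyclic `d`-polytope with `d+3` vertices on the unit sphere has Property Z
(its volume is locally maximal in each single vertex) if and only if it is congruent to `C_d(d+3)`.
-/

namespace Pool.Agent.Results.MP_7322d1_co.PropertyZ

open MeasureTheory Filter Topology

/-- The `i`-th vertex of `C_d(d+3)`, namely
`√(2/d) (cos θ, sin θ, cos 2θ, sin 2θ, …, cos (d/2)θ, sin (d/2)θ)` with `θ = 2πi/(d+3)`. -/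
noncomputable def regVertex (d : ℕ) (i : Fin (d + 3)) : EuclideanSpace ℝ (Fin d) :=
  WithLp.toLp 2 fun j : Fin d => Real.sqrt (2 / (d : ℝ)) *
    (if j.val % 2 = 0 then Real.cos (((j.val / 2 + 1 : ℕ) : ℝ) * (2 * Real.pi * i.val / ((d : ℝ) + 3)))
      else Real.sin (((j.val / 2 + 1 : ℕ) : ℝ) * (2 * Real.pi * i.val / ((d : ℝ) + 3))))

/-- The polytope `C_d(d+3)`. -/
noncomputable def regularCyclic (d : ℕ) : Set (EuclideanSpace ℝ (Fin d)) :=
  convexHull ℝ (Set.range (regVertex d))

/-- The point `(t, t², …, t^d)` of the moment curve. -/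
noncomputable def momentPoint (d : ℕ) (t : ℝ) : EuclideanSpace ℝ (Fin d) :=
  WithLp.toLp 2 fun j : Fin d => t ^ (j.val + 1)

/-- `S` is the set of the indices of the points `p i` on a face of the convex hull of all `p i`:
some linear functional takes its maximum over all points exactly at the `p i` with `i` in `S`
(the empty face and the whole polytope are allowed). -/
def IsFace {d n : ℕ} (p : Fin n → EuclideanSpace ℝ (Fin d)) (S : Set (Fin n)) : Prop :=
  ∃ (f : EuclideanSpace ℝ (Fin d) →ₗ[ℝ] ℝ) (c : ℝ), (∀ i ∈ S, f (p i) = c) ∧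
    ∀ i, i ∉ S → f (p i) < c

/-- `P` is a cyclic `d`-polytope with exactly `n` vertices, all on the unit sphere: it is the
convex hull of `n` distinct points of the unit sphere that affinely span the space, and its faces
correspond to the faces of the convex hull of `n` distinct points of the moment curve. -/
def IsInscribedCyclic (d n : ℕ) (P : Set (EuclideanSpace ℝ (Fin d))) : Prop :=
  ∃ p : Fin n → EuclideanSpace ℝ (Fin d), Function.Injective p ∧ (∀ i, ‖p i‖ = 1) ∧
    affineSpan ℝ (Set.range p) = ⊤ ∧ P = convexHull ℝ (Set.range p) ∧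
    ∃ t : Fin n → ℝ, Function.Injective t ∧
      ∀ S : Set (Fin n), IsFace p S ↔ IsFace (fun i => momentPoint d (t i)) S

/-- `P` and `Q` are equal up to an isometry of the space. -/
def Congruent {d : ℕ} (P Q : Set (EuclideanSpace ℝ (Fin d))) : Prop :=
  ∃ φ : EuclideanSpace ℝ (Fin d) ≃ᵢ EuclideanSpace ℝ (Fin d), φ '' P = Q

/-- Property Z: every vertex `v` of `P` has a neighbourhood `U` such that replacing `v` by a point
`q` of the unit sphere in `U` does not increase the volume of the convex hull of the vertices. -/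
def HasPropertyZ {d : ℕ} (P : Set (EuclideanSpace ℝ (Fin d))) : Prop :=
  ∀ v ∈ Set.extremePoints ℝ P, ∃ U : Set (EuclideanSpace ℝ (Fin d)), IsOpen U ∧ v ∈ U ∧
    ∀ q ∈ U, ‖q‖ = 1 → volume (convexHull ℝ ((Set.extremePoints ℝ P \ {v}) ∪ {q})) ≤ volume P

/-- **Positive answer to Q2, with its converse.**  For every even `d ≥ 2` the polytope `C_d(d+3)`
has Property Z, and a cyclic `d`-polytope with `d+3` vertices on the unit sphere has Property Z
exactly when it is congruent to `C_d(d+3)`. -/
theorem result (d : ℕ) (hd : Even d) (hd2 : 2 ≤ d) :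
    IsInscribedCyclic d (d + 3) (regularCyclic d) ∧ HasPropertyZ (regularCyclic d) ∧
      ∀ P : Set (EuclideanSpace ℝ (Fin d)), IsInscribedCyclic d (d + 3) P →
        (HasPropertyZ P ↔ Congruent P (regularCyclic d)) := by
  have hd0 : 0 < d := by omega
  have hreg : regularCyclic d = convexHull ℝ (Set.range (K3h40.Cyc.cyc d)) := rfl
  have hcyc : IsInscribedCyclic d (d + 3) (regularCyclic d) :=
    ⟨regVertex d, K3h40.Cyc.cyc_injective hd hd0, K3h40.Cyc.norm_cyc hd hd0,
      K3h40.Cyc.cyc_span hd hd0, rfl, K3h40.Cyc.cyc_isCyc hd hd0⟩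
  have main : ∀ P : Set (EuclideanSpace ℝ (Fin d)), IsInscribedCyclic d (d + 3) P →
        (HasPropertyZ P ↔ Congruent P (regularCyclic d)) := by
    rintro P ⟨p, hp, hn, hsp, rfl, hc⟩
    obtain ⟨q, g, hqi, hqn, hqr, hg, hD, hpos⟩ := Zk86.CycZ.sorted hd p hp hn hsp hc
    have hext := Zk86.CycZ.ext_hull q hqn
    have hset : ∀ (i : Fin (d + 3)) (x : EuclideanSpace ℝ (Fin d)),
        (Set.extremePoints ℝ (convexHull ℝ (Set.range p)) \ {q i}) ∪ {x}
          = Set.range (Function.update q i x) := by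
      intro i x
      rw [← hqr, hext, Set.union_singleton, Zk86.CycZ.insert_range q hqi i x]
    constructor
    · intro hZ
      have hL : Zk86.CycZ.LocMax q := by
        intro i
        obtain ⟨U, hU, hv, hmax⟩ := hZ (q i) (by rw [← hqr, hext]; exact ⟨i, rfl⟩)
        filter_upwards [hU.mem_nhds hv] with x hx hx1
        have h1 := hmax x hx hx1
        rw [hset i x, ← hqr] at h1
        exact (ENNReal.toReal_le_toReal (Zk86.CycZ.vol_fin _) (Zk86.CycZ.vol_fin _)).2 h1
      have heq := Zk86.CycZ.vol_of_locMax (g := g) hd hd0 hg hD hpos hqn hL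
      rw [hqr] at heq
      obtain ⟨φ, hφ⟩ := (K3h40.Cyc.main_bound hd hd0 p hn hsp hc).2 heq
      refine ⟨φ.toIsometryEquiv, ?_⟩
      have := φ.toLinearEquiv.toLinearMap.image_convexHull (Set.range p)
      have h3 : (φ.toIsometryEquiv : EuclideanSpace ℝ (Fin d) → EuclideanSpace ℝ (Fin d))
          '' convexHull ℝ (Set.range p) = convexHull ℝ (φ '' Set.range p) := this
      rw [h3, hφ, hreg]
    · rintro ⟨φ, hφ⟩
      have hvol : volume (convexHull ℝ (Set.range p)) = volume (regularCyclic d) := by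
        rw [← hφ]
        exact (K3h40.Cyc.vol_isometry φ _).symm
      intro v hv
      rw [← hqr, hext] at hv
      obtain ⟨i, rfl⟩ := hv
      obtain ⟨nu, w, hw⟩ := Zk86.CycZ.star_exists (g := g) hg hD i
      have h1 := Zk86.CycZ.pert (g := g) hd hg hD hpos i hw
      obtain ⟨U, hU, hUo, hvU⟩ := mem_nhds_iff.1 h1
      refine ⟨U, hUo, hvU, fun x hx hx1 => ?_⟩
      obtain ⟨k, hk, hkpos, hkD, -⟩ := hU hx
      rw [hset i x, hvol, hreg]
      refine (ENNReal.toReal_le_toReal (Zk86.CycZ.vol_fin _) (Zk86.CycZ.vol_fin _)).1 ?_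
      refine Zk86.CycZ.bound_of_pos hd hd0 hk hkD hkpos fun j => ?_
      by_cases hj : j = i
      · rw [hj, Function.update_self]; exact hx1
      · rw [Function.update_of_ne hj]; exact hqn j
  exact ⟨hcyc, (main _ hcyc).2 ⟨IsometryEquiv.refl _, Set.image_id _⟩, main⟩

end Pool.Agent.Results.MP_7322d1_co.PropertyZ
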